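import Pool.Agent.K4H90.AllF.Loc
import Pool.Agent.K4H90.AllF.Core

/-!
# Flows on the complete bipartite graph
-/

set_option autoImplicit false
set_option linter.unusedSectionVars false

namespace Pool.Agent.K4H90.AllP

open Finset Pool.Agent.TH658.Dg Pool.Agent.TH658.Sos Pool.Agent.K4H90.AllF

section globt

variable {A Q E : Type} [CommRing A] [DecidableEq Q] [Fintype E] {src tgt : E → Q}
  (τ : Q → E → A)

/-- A local solution comes from a function with prescribed excess at all nodes but one. -/
theorem exists_glob_t [Fintype Q] {W : Finset (E ⊕ Q)} {M₀ : XX (A := A) src tgt}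
    (hM₀ : M₀ ∈ SolS src tgt τ W) {r : Q}
    (hW : ∀ v, Sum.inr v ∉ W → Cn (A := A) src tgt W v r) (t : Q → A)
    (ht : ∀ v, Sum.inr v ∈ W → t v = bd src tgt (τ v) v) :
    ∃ y : E → A, (∀ c ∈ W, ∀ e, See src tgt c e → y e = M₀.1 c e + tw τ c e) ∧
      ∀ v, v ≠ r → bd src tgt y v = t v := by
  classical
  let y₀ : E → A := fun e => if h : ∃ c ∈ W, See src tgt c e then
    M₀.1 h.choose e + tw τ h.choose e else 0
  have h0 : ∀ c ∈ W, ∀ e, See src tgt c e → y₀ e = M₀.1 c e + tw τ c e := by
    intro c hc e he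
    have h : ∃ c ∈ W, See src tgt c e := ⟨c, hc, he⟩
    show (if h : ∃ c ∈ W, See src tgt c e then
      M₀.1 h.choose e + tw τ h.choose e else 0) = _
    rw [dif_pos h]
    exact hM₀ _ h.choose_spec.1 _ hc e h.choose_spec.2 he
  have h1 : ∀ v, Sum.inr v ∈ W → bd src tgt y₀ v = t v := by
    intro v hv
    have h2 : bd src tgt y₀ v = bd src tgt (M₀.1 (.inr v) + τ v) v :=
      bd_congr src tgt fun e he => h0 _ hv e he
    rw [h2, bd_add, (M₀.2 (.inr v)).2 v rfl, zero_add, ht v hv]
  choose f hf using hW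
  let g : Q → E → A := fun v => if h : Sum.inr v ∉ W then f v h else 0
  have hg : ∀ v, Sum.inr v ∉ W → (∀ c ∈ W, ∀ e, See src tgt c e → g v e = 0) ∧
    ∀ u, bd src tgt (g v) u = (if u = v then 1 else 0) - (if u = r then 1 else 0) := by
    intro v hv
    have : g v = f v hv := dif_pos hv
    rw [this]
    exact hf v hv
  refine ⟨y₀ + ∑ v ∈ univ.filter (fun v => Sum.inr v ∉ W),
    fun e => (t v - bd src tgt y₀ v) * g v e, ?_, ?_⟩
  · intro c hc e he
    rw [Pi.add_apply, Finset.sum_apply, h0 c hc e he]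
    convert add_zero _
    refine Finset.sum_eq_zero fun v hv => ?_
    rw [Finset.mem_filter] at hv
    rw [(hg v hv.2).1 c hc e he, mul_zero]
  · intro v hv
    rw [bd_add, bd_sum]
    have h2 : ∀ w ∈ univ.filter (fun v => Sum.inr v ∉ W), bd src tgt
        (fun e => (t w - bd src tgt y₀ w) * g w e) v =
        if w = v then t v - bd src tgt y₀ v else 0 := by
      intro w hw
      rw [Finset.mem_filter] at hw
      rw [bd_mul, (hg w hw.2).2 v, if_neg hv, sub_zero]
      by_cases h3 : w = v
      · rw [if_pos h3, if_pos h3.symm, h3, mul_one]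
      · rw [if_neg h3, if_neg (Ne.symm h3), mul_zero]
    rw [Finset.sum_congr rfl h2, Finset.sum_ite_eq']
    by_cases h3 : Sum.inr v ∈ W
    · rw [if_neg, add_zero, h1 v h3]
      rw [Finset.mem_filter]
      exact fun h => h.2 h3
    · rw [if_pos]
      · ring
      · rw [Finset.mem_filter]
        exact ⟨Finset.mem_univ v, h3⟩

end globt

/-- The edges. -/
abbrev Eb (N M : ℕ) : Type := Fin N × Fin M

/-- The nodes. -/
abbrev Qb (N M : ℕ) : Type := Fin N ⊕ Fin M

/-- The classes. -/
abbrev Cb (N M : ℕ) : Type := Eb N M ⊕ Qb N M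

variable {N M : ℕ}

/-- The source of an edge is its row. -/
def sb (e : Eb N M) : Qb N M := .inl e.1

/-- The target of an edge is its column. -/
def tb (e : Eb N M) : Qb N M := .inr e.2

theorem see_row {i : Fin N} {e : Eb N M} : See sb tb (.inr (.inl i)) e ↔ e.1 = i := by
  constructor
  · rintro (h | h)
    · cases h
    · exact Sum.inl.inj h
  · intro h
    right
    show Sum.inl e.1 = _
    rw [h]

theorem see_col {j : Fin M} {e : Eb N M} : See sb tb (.inr (.inr j)) e ↔ e.2 = j := by
  constructor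
  · rintro (h | h)
    · exact Sum.inr.inj h
    · cases h
  · intro h
    left
    show Sum.inr e.2 = _
    rw [h]

section

variable {A : Type} [CommRing A]

theorem bd_row (m : Eb N M → A) (i : Fin N) : bd sb tb m (.inl i) = - ∑ j, m (i, j) := by
  unfold bd
  rw [Fintype.sum_prod_type, Finset.sum_eq_single i]
  · rw [← Finset.sum_neg_distrib]
    refine Finset.sum_congr rfl fun j _ => ?_
    rw [if_neg (show ¬ tb (i, j) = Sum.inl i from fun h => by cases h),
      if_pos (show sb (i, j) = Sum.inl i from rfl), zero_sub]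
  · intro i' _ h
    refine Finset.sum_eq_zero fun j _ => ?_
    rw [if_neg (show ¬ tb (i', j) = Sum.inl i from fun h => by cases h),
      if_neg (show ¬ sb (i', j) = Sum.inl i from fun h1 => h (Sum.inl.inj h1)), sub_zero]
  · intro h
    exact absurd (mem_univ _) h

theorem bd_col (m : Eb N M → A) (j : Fin M) : bd sb tb m (.inr j) = ∑ i, m (i, j) := by
  unfold bd
  rw [Fintype.sum_prod_type]
  refine Finset.sum_congr rfl fun i _ => ?_
  rw [Finset.sum_eq_single j]
  · rw [if_pos (show tb (i, j) = Sum.inr j from rfl),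
      if_neg (show ¬ sb (i, j) = Sum.inr j from fun h => by cases h), sub_zero]
  · intro j' _ h
    rw [if_neg (show ¬ sb (i, j') = Sum.inr j from fun h => by cases h),
      if_neg (show ¬ tb (i, j') = Sum.inr j from fun h1 => h (Sum.inr.inj h1)), sub_zero]
  · intro h
    exact absurd (mem_univ _) h

/-! ### Touched rows and columns -/

/-- The rows which a class touches. -/
def rowOf : Cb N M → Option (Fin N)
  | .inl e => some e.1
  | .inr (.inl i) => some i
  | .inr (.inr _) => none

/-- The columns which a class touches. -/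
def colOf : Cb N M → Option (Fin M)
  | .inl e => some e.2
  | .inr (.inl _) => none
  | .inr (.inr j) => some j

open Classical in
/-- The untouched rows. -/
noncomputable def freeR (W : Finset (Cb N M)) : Finset (Fin N) :=
  univ.filter fun i => ∀ c ∈ W, rowOf c ≠ some i

open Classical in
/-- The untouched columns. -/
noncomputable def freeC (W : Finset (Cb N M)) : Finset (Fin M) :=
  univ.filter fun i => ∀ c ∈ W, colOf c ≠ some i

theorem mem_freeR {W : Finset (Cb N M)} {i : Fin N} :
    i ∈ freeR W ↔ ∀ c ∈ W, rowOf c ≠ some i := by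
  classical
  unfold freeR
  rw [mem_filter]
  exact ⟨fun h => h.2, fun h => ⟨mem_univ _, h⟩⟩

theorem mem_freeC {W : Finset (Cb N M)} {i : Fin M} :
    i ∈ freeC W ↔ ∀ c ∈ W, colOf c ≠ some i := by
  classical
  unfold freeC
  rw [mem_filter]
  exact ⟨fun h => h.2, fun h => ⟨mem_univ _, h⟩⟩

theorem card_free {n : ℕ} {C : Type} (W : Finset C) (f : C → Option (Fin n))
    (S : Finset (Fin n)) (hS : ∀ i, i ∉ S → ∃ c ∈ W, f c = some i) : n ≤ S.card + W.card := by
  classical
  have h1 : (Sᶜ.image some).card ≤ (W.image f).card := by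
    refine card_le_card fun x hx => ?_
    obtain ⟨i, hi, rfl⟩ := mem_image.1 hx
    rw [mem_compl] at hi
    obtain ⟨c, hc, h⟩ := hS i hi
    exact mem_image.2 ⟨c, hc, h⟩
  rw [card_image_of_injective _ (Option.some_injective _), card_compl, Fintype.card_fin] at h1
  have h2 := card_image_le (s := W) (f := f)
  omega

theorem card_freeR (W : Finset (Cb N M)) : N ≤ (freeR W).card + W.card := by
  refine card_free W rowOf _ fun i hi => ?_
  rw [mem_freeR] at hi
  push Not at hi
  exact hi

theorem card_freeC (W : Finset (Cb N M)) : M ≤ (freeC W).card + W.card := by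
  refine card_free W colOf _ fun i hi => ?_
  rw [mem_freeC] at hi
  push Not at hi
  exact hi

theorem freeR_anti {W W' : Finset (Cb N M)} (h : W ⊆ W') {i : Fin N} (hi : i ∈ freeR W') :
    i ∈ freeR W :=
  mem_freeR.2 fun c hc => mem_freeR.1 hi c (h hc)

theorem not_see_row {W : Finset (Cb N M)} {i : Fin N} (hi : i ∈ freeR W) {j : Fin M}
    (hj : Sum.inr (Sum.inr j) ∉ W) : ∀ c ∈ W, ¬ See sb tb c (i, j) := by
  intro c hc hs
  have h := mem_freeR.1 hi c hc
  rcases c with e | i' | j'
  · have h1 : (i, j) = e := hs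
    apply h
    rw [← h1]
    rfl
  · rw [see_row] at hs
    apply h
    rw [← hs]
    rfl
  · rw [see_col] at hs
    apply hj
    rw [show j = j' from hs]
    exact hc

theorem not_see_col {W : Finset (Cb N M)} {j : Fin M} (hj : j ∈ freeC W) {i : Fin N}
    (hi : Sum.inr (Sum.inl i) ∉ W) : ∀ c ∈ W, ¬ See sb tb c (i, j) := by
  intro c hc hs
  have h := mem_freeC.1 hj c hc
  rcases c with e | i' | j'
  · have h1 : (i, j) = e := hs
    apply h
    rw [← h1]
    rfl
  · rw [see_row] at hs
    apply hi
    rw [show i = i' from hs]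
    exact hc
  · rw [see_col] at hs
    apply h
    rw [← hs]
    rfl

theorem conn {W : Finset (Cb N M)} (hW : W.card < M) {r : Fin N} (hr : r ∈ freeR W) (v : Qb N M)
    (hv : Sum.inr v ∉ W) : Cn (A := A) sb tb W v (.inl r) := by
  have h1 : ∀ j, Sum.inr (Sum.inr j) ∉ W → Cn (A := A) sb tb W (.inr j) (.inl r) := fun j hj =>
    Cn.edge (e := (r, j)) (not_see_row hr hj)
  rcases v with i | j
  · obtain ⟨j, hj⟩ : (freeC W).Nonempty := by
      rw [← Finset.card_pos]
      have := card_freeC W
      omega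
    have h2 : Sum.inr (Sum.inr j) ∉ W := fun h => mem_freeC.1 hj _ h rfl
    have h3 : Cn (A := A) sb tb W (.inr j) (.inl i) := Cn.edge (e := (i, j)) (not_see_col hj hv)
    exact h3.symm.trans (h1 j h2)
  · exact h1 j hv

theorem exists_root {W : Finset (Cb N M)} (hW : W.card < N) : ∃ r, r ∈ freeR W := by
  have h : (freeR W).Nonempty := by
    rw [← Finset.card_pos]
    have := card_freeR W
    omega
  exact h

theorem extend {K : ℕ} (hM : K < M) (hN : K < N) (τ : Qb N M → Eb N M → A)
    (W W' : Finset (Cb N M)) (hWW : W ≤ W') (hW' : W'.card ≤ K)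
    (m : XX (A := A) (sb (N := N) (M := M)) tb) (hm : m ∈ SolS sb tb τ W) :
    ∃ M' ∈ SolS sb tb τ W', M' - m ∈ NN sb tb W := by
  obtain ⟨r, hr⟩ := exists_root (W := W') (by omega)
  have hr' := freeR_anti hWW hr
  obtain ⟨y, h1, h2⟩ := exists_glob τ hm (conn ((card_le_card hWW).trans_lt (by omega)) hr')
  have h3 : ∀ c ∈ W', ∀ e, See sb tb c e →
      (mk sb tb fun c e => y e - tw τ c e).1 c e = y e - tw τ c e := by
    intro c hc e he
    refine mk_apply sb tb (z := fun c e => y e - tw τ c e) c (fun v hv => ?_) e he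
    subst hv
    show bd sb tb (y - τ v) v = 0
    rw [bd_sub, h2 v, sub_self]
    rintro rfl
    exact mem_freeR.1 hr _ hc rfl
  refine ⟨mk sb tb fun c e => y e - tw τ c e, ?_, ?_⟩
  · intro c hc c' hc' e he he'
    rw [h3 c hc e he, h3 c' hc' e he', sub_add_cancel, sub_add_cancel]
  · intro c hc
    have h4 : (mk sb tb fun c e => y e - tw τ c e).1 c = m.1 c := by
      refine ext_class sb tb c fun e he => ?_
      rw [h3 c (hWW hc) e he, h1 c hc e he, add_sub_cancel_right]
    show (mk sb tb fun c e => y e - tw τ c e).1 c - m.1 c = 0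
    rw [h4, sub_self]

/-- The system of the base graph. -/
def sys (K : ℕ) (hM : K < M) (hN : K < N) (τ : Qb N M → Eb N M → A) :
    Sys (XX (A := A) (sb (N := N) (M := M)) tb) (Finset (Cb N M)) where
  N := NN sb tb
  D := DD sb tb
  Sol := SolS sb tb τ
  size := Finset.card
  K := K
  N_anti W W' h M hM c hc := hM c (h hc)
  D_anti W W' h M hM c hc c' hc' := hM c (h hc) c' (h hc')
  Sol_anti W W' h M hM c hc c' hc' := hM c (h hc) c' (h hc')
  sol_iff W M M' hM := by
    constructor
    · intro h c hc c' hc' e he he'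
      show M'.1 c e - M.1 c e = M'.1 c' e - M.1 c' e
      have h1 := h c hc c' hc' e he he'
      have h2 := hM c hc c' hc' e he he'
      linear_combination h1 - h2
    · intro h c hc c' hc' e he he'
      have h1 : M'.1 c e - M.1 c e = M'.1 c' e - M.1 c' e := h c hc c' hc' e he he'
      have h2 := hM c hc c' hc' e he he'
      linear_combination h1 + h2
  size_bot := Finset.card_empty
  size_sup W W' := Finset.card_union_le W W'
  nonempty W hW := by
    obtain ⟨m, hm, -⟩ := extend hM hN τ ∅ W (Finset.empty_subset W) hW 0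
      (fun c hc => absurd hc (Finset.notMem_empty c))
    exact ⟨m, hm⟩
  extend W W' h hK m hm := extend hM hN τ W W' h hK m hm

/-- The homogeneous system. -/
theorem hasPM0 {K : ℕ} (hM : K < M) (hN : K < N) (F : Type) [Field F]
    (W₀ : Finset (Cb N M)) (hW₀ : W₀.card ≤ K)
    (M₀ : XX (A := A) (sb (N := N) (M := M)) tb)
    (hM₀ : M₀ ∈ DD sb tb W₀) {r : ℕ} :
    HasPM F (NN sb tb) (fun W => ((DD sb tb W :
      AddSubgroup (XX (A := A) (sb (N := N) (M := M)) tb)) : Set _))
      Finset.card W₀ M₀ r := by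
  classical
  have h0 : M₀ ∈ SolS sb tb (0 : Qb N M → Eb N M → A) W₀ := by
    rw [← DD_eq]
    exact hM₀
  obtain ⟨j, hj⟩ := exists_root (W := W₀) (by omega)
  obtain ⟨y, hy1, hy2⟩ := exists_glob 0 h0 (conn (by omega) hj)
  have hy3 : ∀ v, bd sb tb y v = 0 := by
    have h1 : ∀ v, v ≠ Sum.inl j → bd sb tb y v = 0 := fun v hv => by
      rw [hy2 v hv]
      exact bd_zero sb tb v
    intro v
    by_cases hv : v = Sum.inl j
    · have h2 := sum_bd sb tb y
      rw [← Finset.add_sum_erase _ _ (mem_univ (Sum.inl j)),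
        Finset.sum_eq_zero fun v hv => h1 v (ne_of_mem_erase hv), add_zero] at h2
      rw [hv, h2]
    · exact h1 v hv
  have htw : ∀ (c : Cb N M) (e : Eb N M),
      tw (0 : Qb N M → Eb N M → A) c e = 0 := by
    intro c e
    rcases c with _ | _ <;> rfl
  have hval : ∀ c e, See sb tb c e → (mk sb tb fun _ => y).1 c e = y e := fun c e he =>
    mk_apply sb tb (z := fun _ => y) c (fun v _ => hy3 v) e he
  refine ⟨Unit, inferInstance, fun _ => 1, fun _ => mk sb tb fun _ => y, by simp, ?_⟩
  intro W _ _ G _ hG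
  rw [Fintype.sum_unique, one_mul]
  refine hG _ ?_ ?_
  · intro c _ c' _ e he he'
    rw [hval c e he, hval c' e he']
  · intro c hc
    show (mk sb tb fun _ => y).1 c - M₀.1 c = 0
    rw [sub_eq_zero]
    refine ext_class sb tb c fun e he => ?_
    rw [hval c e he, hy1 c hc e he, htw, add_zero]

end

end Pool.Agent.K4H90.AllP
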