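import Mathlib

/-!
# Sums over partial matchings modulo a prime

A sum over the embeddings of a set with `p - 1` elements into a set with `2 p - 1` elements. If the
summand depends only on a few values and a few preimages, then the embeddings which miss one of
the observed elements cancel modulo `p`.
-/

set_option autoImplicit false
set_option linter.unusedSectionVars false

namespace Pool.Agent.K4H90.AllP

open Finset

/-- The sum of an invariant function over a free orbit space of a cyclic group of order `p`. -/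
theorem sum_free {α : Type} [Fintype α] {p : ℕ} [Fact p.Prime] {F : Type} [Field F] [CharP F p]
    (f : α → α) (hf : f^[p] = id) (hfix : ∀ a, f a ≠ a) (Φ : α → F)
    (hΦ : ∀ a, Φ (f a) = Φ a) : ∑ a, Φ a = 0 := by
  classical
  have h1 : ∑ a, Φ a = ∑ x ∈ univ.image Φ, ((univ.filter fun a => Φ a = x).card : F) * x := by
    rw [← Finset.sum_fiberwise_of_maps_to (s := univ) (t := univ.image Φ) (g := Φ)
      fun a _ => mem_image_of_mem _ (mem_univ a)]
    refine Finset.sum_congr rfl fun x _ => ?_
    rw [← nsmul_eq_mul, ← Finset.sum_const]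
    exact Finset.sum_congr rfl fun a ha => (mem_filter.1 ha).2
  rw [h1]
  refine Finset.sum_eq_zero fun x _ => ?_
  have h2 : p ∣ (univ.filter fun a => Φ a = x).card := by
    let g : Function.End {a // Φ a = x} := fun a => ⟨f a.1, (hΦ a.1).trans a.2⟩
    have hg : ∀ (n : ℕ) (a : {a // Φ a = x}), ((g ^ n) a).1 = f^[n] a.1 := by
      intro n
      induction n with
      | zero => intro a; rfl
      | succ n ih =>
        intro a
        rw [pow_succ, Function.iterate_succ]
        exact ih (g a)
    have h3 : g ^ p ^ 1 = 1 := by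
      rw [pow_one]
      funext a
      refine Subtype.ext ?_
      rw [hg, hf]
      rfl
    have h4 := Equiv.Perm.card_fixedPoints_modEq h3
    have h5 : Fintype.card (Function.fixedPoints g) = 0 := by
      rw [Fintype.card_eq_zero_iff]
      exact ⟨fun a => hfix a.1.1 (congrArg Subtype.val a.2)⟩
    rw [h5, Fintype.card_subtype] at h4
    exact (Nat.modEq_zero_iff_dvd).1 h4
  rw [(CharP.cast_eq_zero_iff F p _).2 h2, zero_mul]

section

variable {I J : Type} [Fintype I] [Fintype J] [DecidableEq I] [DecidableEq J] {p : ℕ}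
  [Fact p.Prime] {F : Type} [Field F] [CharP F p]

theorem sum_miss (hI : Fintype.card I = 2 * p - 1) (hJ : Fintype.card J = p - 1)
    (T : Finset I) (hT : T.card ≤ p - 1) (Φ : (J ↪ I) → F)
    (hΦ : ∀ σ σ' : J ↪ I, (∀ u ∈ T, ∀ j, σ j = u ↔ σ' j = u) → Φ σ = Φ σ') (u₀ : I) (hu : u₀ ∈ T) :
    ∑ σ : J ↪ I, (if ∃ j, σ j = u₀ then 0 else Φ σ) = 0 := by
  classical
  have hp : 0 < p := (Fact.out : p.Prime).pos
  have : NeZero p := ⟨hp.ne'⟩
  have h1 : Fintype.card (ZMod p) ≤ Fintype.card {u : I // u ∉ T} := by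
    rw [ZMod.card, Fintype.card_subtype_compl, hI, Fintype.card_coe]
    omega
  obtain ⟨c'⟩ := Function.Embedding.nonempty_of_card_le h1
  let c : ZMod p ↪ I := c'.trans (Function.Embedding.subtype _)
  have hc : ∀ z, c z ∉ T := fun z => (c' z).2
  let π : Equiv.Perm I := (Equiv.addRight (1 : ZMod p)).extendDomain (Equiv.ofInjective c c.injective)
  have hπc : ∀ z, π (c z) = c (z + 1) := fun z =>
    Equiv.Perm.extendDomain_apply_image _ (Equiv.ofInjective c c.injective) z
  have hπn : ∀ u, u ∉ Set.range c → π u = u := fun u hu =>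
    Equiv.Perm.extendDomain_apply_not_subtype _ _ hu
  have hπT : ∀ u ∈ T, π u = u := by
    intro u hu
    refine hπn u ?_
    rintro ⟨z, rfl⟩
    exact hc z hu
  have hπp : π ^ p = 1 := by
    show ((Equiv.addRight (1 : ZMod p)).extendDomain (Equiv.ofInjective c c.injective)) ^ p = 1
    have h2 : ∀ (n : ℕ) (z : ZMod p), ((Equiv.addRight (1 : ZMod p)) ^ n) z = z + n := by
      intro n
      induction n with
      | zero => intro z; simp
      | succ n ih =>
        intro z
        rw [pow_succ, Equiv.Perm.mul_apply, ih, Equiv.coe_addRight, Nat.cast_succ]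
        ring
    have h3 : (Equiv.addRight (1 : ZMod p)) ^ p = 1 := by
      ext z
      rw [h2, CharP.cast_eq_zero, add_zero]
      rfl
    rw [← Equiv.Perm.extendDomain_pow, h3, Equiv.Perm.extendDomain_one]
  let S : Type := {σ : J ↪ I // ¬ ∃ j, σ j = u₀}
  let f : S → S := fun σ => ⟨σ.1.trans π.toEmbedding, by
    rintro ⟨j, hj⟩
    refine σ.2 ⟨j, ?_⟩
    have h2 : π (σ.1 j) = u₀ := hj
    exact π.injective (h2.trans (hπT u₀ hu).symm)⟩
  have h2 : ∑ σ : J ↪ I, (if ∃ j, σ j = u₀ then 0 else Φ σ) = ∑ σ : S, Φ σ.1 := by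
    have h3 : ∑ σ : J ↪ I, (if ∃ j, σ j = u₀ then 0 else Φ σ) =
        ∑ σ ∈ univ.filter (fun σ : J ↪ I => ¬ ∃ j, σ j = u₀), Φ σ := by
      rw [Finset.sum_filter]
      refine Finset.sum_congr rfl fun σ _ => ?_
      by_cases h : ∃ j, σ j = u₀
      · rw [if_pos h, if_neg (not_not.2 h)]
      · rw [if_neg h, if_pos h]
    rw [h3]
    exact (Finset.sum_subtype _ (fun σ => by simp) _)
  rw [h2]
  refine sum_free (p := p) f ?_ ?_ _ ?_
  · have h3 : ∀ n (σ : S) j, (f^[n] σ).1 j = (π ^ n) (σ.1 j) := by
      intro n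
      induction n with
      | zero => intro σ j; rfl
      | succ n ih =>
        intro σ j
        rw [Function.iterate_succ, pow_succ]
        exact ih (f σ) j
    funext σ
    refine Subtype.ext (Function.Embedding.ext fun j => ?_)
    rw [h3, hπp]
    rfl
  · intro σ hσ
    have h3 : ∀ j, π (σ.1 j) = σ.1 j := fun j =>
      congrArg (fun τ : S => τ.1 j) hσ
    have h4 : ∀ j, σ.1 j ∉ Set.range c := by
      rintro j ⟨z, hz⟩
      have h5 := h3 j
      rw [← hz, hπc] at h5
      have h6 : z + 1 = z := c.injective h5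
      have h7 : (1 : ZMod p) = 0 := by
        have := congrArg (fun x => x - z) h6
        simpa using this
      have : Fact (1 < p) := ⟨(Fact.out : p.Prime).one_lt⟩
      exact one_ne_zero h7
    -- the range of `σ` is the complement of the range of `c`
    have h5 : univ.map σ.1 ∪ {u₀} ⊆ (univ.map c)ᶜ := by
      intro u hu'
      rw [mem_compl, mem_map]
      rw [mem_union, mem_map, mem_singleton] at hu'
      rintro ⟨z, -, hz⟩
      rcases hu' with ⟨j, -, hj⟩ | hu'
      · exact h4 j ⟨z, hz.trans hj.symm⟩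
      · rw [hu'] at hz
        exact hc z (hz ▸ hu)
    have h6 := card_le_card h5
    rw [card_compl, card_map, card_univ, ZMod.card, hI, card_union_of_disjoint, card_map, card_univ,
      hJ, card_singleton] at h6
    · omega
    · rw [disjoint_singleton_right, mem_map]
      rintro ⟨j, -, hj⟩
      exact σ.2 ⟨j, hj⟩
  · intro σ
    refine hΦ _ _ fun u hu' j => ?_
    show π (σ.1 j) = u ↔ σ.1 j = u
    constructor
    · intro h
      exact π.injective (h.trans (hπT u hu').symm)
    · intro h
      rw [h, hπT u hu']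

/-- The cancellation. -/
theorem sum_emb (hI : Fintype.card I = 2 * p - 1) (hJ : Fintype.card J = p - 1)
    (T : Finset I) (C : Finset J) (hT : T.card + C.card ≤ p - 1) (Ψ : (J ↪ I) → F)
    (hΨ : ∀ σ σ' : J ↪ I, (∀ u ∈ T, ∀ j, σ j = u ↔ σ' j = u) → (∀ j ∈ C, σ j = σ' j) →
      Ψ σ = Ψ σ') (h0 : ∀ σ, (∀ u ∈ T, ∃ j, σ j = u) → Ψ σ = 0) :
    ∑ σ : J ↪ I, Ψ σ = 0 := by
  classical
  -- one observed element
  have h1 : ∀ (U : Finset I) (u₀ : I), U ⊆ T → u₀ ∈ T →
      ∑ σ : J ↪ I, (if ∃ j, σ j = u₀ then 0 else if ∀ u ∈ U, ∃ j, σ j = u then Ψ σ else 0) = 0 := by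
    intro U u₀ hU hu
    have h2 : ∀ σ : J ↪ I, (if ∃ j, σ j = u₀ then 0 else
        if ∀ u ∈ U, ∃ j, σ j = u then Ψ σ else 0) = ∑ ρ : C → I, (if ∃ j, σ j = u₀ then 0 else
        if ρ = (fun j => σ j.1) then if ∀ u ∈ U, ∃ j, σ j = u then Ψ σ else 0 else 0) := by
      intro σ
      by_cases h : ∃ j, σ j = u₀
      · simp only [if_pos h, Finset.sum_const_zero]
      · simp only [if_neg h]
        rw [Finset.sum_ite_eq']
        simp
    rw [Finset.sum_congr rfl fun σ _ => h2 σ, Finset.sum_comm]
    refine Finset.sum_eq_zero fun ρ _ => ?_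
    refine sum_miss (p := p) hI hJ (T ∪ univ.image ρ) ?_ _ ?_ u₀ (mem_union_left _ hu)
    · refine (card_union_le _ _).trans (le_trans (Nat.add_le_add_left ?_ _) hT)
      refine card_image_le.trans ?_
      rw [card_univ, Fintype.card_coe]
    · intro σ σ' h
      have h3 : (ρ = fun j : C => σ j.1) ↔ (ρ = fun j : C => σ' j.1) := by
        constructor
        · intro h4
          funext j
          have h5 := h (ρ j) (mem_union_right _ (mem_image_of_mem _ (mem_univ j))) j.1
          exact (h5.1 (congrFun h4 j).symm).symm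
        · intro h4
          funext j
          have h5 := h (ρ j) (mem_union_right _ (mem_image_of_mem _ (mem_univ j))) j.1
          exact (h5.2 (congrFun h4 j).symm).symm
      by_cases h4 : ρ = fun j : C => σ j.1
      · rw [if_pos h4, if_pos (h3.1 h4)]
        have h5 : (∀ u ∈ U, ∃ j, σ j = u) ↔ (∀ u ∈ U, ∃ j, σ' j = u) :=
          forall₂_congr fun u hu' => exists_congr fun j => h u (mem_union_left _ (hU hu')) j
        have h6 : Ψ σ = Ψ σ' := by
          refine hΨ _ _ (fun u hu' j => h u (mem_union_left _ hu') j) fun j hj => ?_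
          have h7 := congrFun h4 ⟨j, hj⟩
          have h8 := congrFun (h3.1 h4) ⟨j, hj⟩
          exact h7.symm.trans h8
        simp only [h5, h6]
      · rw [if_neg h4, if_neg fun h5 => h4 (h3.2 h5)]
  -- induction over the observed elements
  have h2 : ∀ U : Finset I, U ⊆ T →
      ∑ σ : J ↪ I, Ψ σ = ∑ σ : J ↪ I, (if ∀ u ∈ U, ∃ j, σ j = u then Ψ σ else 0) := by
    intro U
    induction U using Finset.induction_on with
    | empty => intro _; simp
    | insert a s ha ih =>
      intro hU
      rw [ih ((subset_insert _ _).trans hU)]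
      have h3 := h1 s a ((subset_insert _ _).trans hU) (hU (mem_insert_self _ _))
      rw [← sub_eq_zero, ← Finset.sum_sub_distrib]
      refine Eq.trans ?_ h3
      refine Finset.sum_congr rfl fun σ _ => ?_
      by_cases h4 : ∃ j, σ j = a
      · rw [if_pos h4]
        have h5 : (∀ u ∈ insert a s, ∃ j, σ j = u) ↔ (∀ u ∈ s, ∃ j, σ j = u) := by
          rw [Finset.forall_mem_insert]
          exact ⟨fun h => h.2, fun h => ⟨h4, h⟩⟩
        simp only [h5, sub_self]
      · rw [if_neg h4, if_neg (fun h5 : ∀ u ∈ insert a s, ∃ j, σ j = u =>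
          h4 (h5 a (mem_insert_self _ _))), sub_zero]
  rw [h2 T subset_rfl]
  refine Finset.sum_eq_zero fun σ _ => ?_
  by_cases h : ∀ u ∈ T, ∃ j, σ j = u
  · rw [if_pos h, h0 σ h]
  · rw [if_neg h]

/-- The number of embeddings is not divisible by `p`. -/
theorem card_emb_ne (hI : Fintype.card I = 2 * p - 1) (hJ : Fintype.card J = p - 1) :
    ((Fintype.card (J ↪ I) : ℕ) : F) ≠ 0 := by
  have hp : p.Prime := Fact.out
  rw [Ne, CharP.cast_eq_zero_iff F p, Fintype.card_embedding_eq, hI, hJ,
    Nat.descFactorial_eq_prod_range, hp.prime.dvd_finsetProd_iff]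
  rintro ⟨i, hi, h⟩
  rw [mem_range] at hi
  have h2 := hp.two_le
  obtain ⟨q, hq⟩ := h
  have h3 : p < 2 * p - 1 - i := by omega
  have h4 : 2 * p - 1 - i < 2 * p := by omega
  rw [hq] at h3 h4
  have h5 : 1 < q := by
    by_contra h6
    have : p * q ≤ p * 1 := Nat.mul_le_mul_left _ (by omega)
    omega
  have h6 : p * 2 ≤ p * q := Nat.mul_le_mul_left _ h5
  omega

end

end Pool.Agent.K4H90.AllP
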