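import Pool.Agent.K4H90.AllP.Bip
import Pool.Agent.K4H90.AllF.Tour

/-!
# A graph of degree three that encodes the complete bipartite graph

Every row and every column of the complete bipartite graph is replaced by a path, along which the
partial sums of the values at the row (column) are passed on.
-/

set_option autoImplicit false
set_option linter.unusedSectionVars false

namespace Pool.Agent.K4H90.AllP

open Finset Pool.Agent.TH658.Dg Pool.Agent.TH658.Sos Pool.Agent.K4H90.AllF

section pre

variable {A : Type} [CommRing A]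

/-- The partial sums. -/
def ps {n : ℕ} (m : Fin (n + 1) → A) (j : Fin (n + 1)) : A := ∑ i ∈ univ.filter (· ≤ j), m i

theorem ps_zero {n : ℕ} (m : Fin (n + 1) → A) : ps m 0 = m 0 := by
  unfold ps
  have h : (univ.filter fun i : Fin (n + 1) => i ≤ 0) = {0} := by
    ext i
    simp
  rw [h, Finset.sum_singleton]

theorem ps_last {n : ℕ} (m : Fin (n + 1) → A) : ps m (Fin.last n) = ∑ i, m i := by
  unfold ps
  have h : (univ.filter fun i : Fin (n + 1) => i ≤ Fin.last n) = univ := by
    ext i
    simp [Fin.le_last]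
  rw [h]

theorem ps_succ {n : ℕ} (m : Fin (n + 1) → A) (j : Fin n) :
    ps m j.succ = ps m j.castSucc + m j.succ := by
  unfold ps
  have h : (univ.filter fun i : Fin (n + 1) => i ≤ j.succ) =
      insert j.succ (univ.filter fun i : Fin (n + 1) => i ≤ j.castSucc) := by
    ext i
    simp only [mem_filter, mem_univ, true_and, mem_insert, Fin.le_def, Fin.ext_iff, Fin.val_succ,
      Fin.val_castSucc]
    omega
  rw [h, Finset.sum_insert, add_comm]
  rw [mem_filter]
  rintro ⟨-, h1⟩
  rw [Fin.le_def, Fin.val_succ, Fin.val_castSucc] at h1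
  omega

theorem ps_pre {n : ℕ} (m : Fin (n + 1) → A) (j : Fin (n + 1)) :
    ∑ i : Fin n, (if i.succ = j then ps m i.castSucc else 0) + m j = ps m j := by
  induction j using Fin.cases with
  | zero =>
    rw [Finset.sum_eq_zero, ps_zero, zero_add]
    intro i _
    rw [if_neg (Fin.succ_ne_zero i)]
  | succ j =>
    rw [Finset.sum_eq_single j, if_pos rfl, ps_succ]
    · intro i _ h
      rw [if_neg fun h1 => h (Fin.succ_injective _ h1)]
    · intro h
      exact absurd (mem_univ _) h

theorem ps_post {n : ℕ} (m : Fin (n + 1) → A) (hm : ∑ i, m i = 0) (j : Fin (n + 1)) :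
    ∑ i : Fin n, (if i.castSucc = j then ps m i.castSucc else 0) = ps m j := by
  induction j using Fin.lastCases with
  | last =>
    rw [Finset.sum_eq_zero, ps_last, hm]
    intro i _
    rw [if_neg (Fin.castSucc_lt_last i).ne]
  | cast j =>
    rw [Finset.sum_eq_single j, if_pos rfl]
    · intro i _ h
      rw [if_neg fun h1 => h (Fin.castSucc_injective _ h1)]
    · intro h
      exact absurd (mem_univ _) h

end pre

/-- The edges: row steps, column steps and crossings. -/
abbrev Es (N M : ℕ) : Type :=
  (Fin (N + 1) × Fin M) ⊕ ((Fin N × Fin (M + 1)) ⊕ (Fin (N + 1) × Fin (M + 1)))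

/-- The nodes: row nodes and column nodes. -/
abbrev Qs (N M : ℕ) : Type :=
  (Fin (N + 1) × Fin (M + 1)) ⊕ (Fin (N + 1) × Fin (M + 1))

/-- The classes. -/
abbrev Cs (N M : ℕ) : Type := Es N M ⊕ Qs N M

variable {N M : ℕ}

/-- The source. -/
def ss : Es N M → Qs N M
  | .inl e => .inl (e.1, e.2.castSucc)
  | .inr (.inl e) => .inr (e.1.succ, e.2)
  | .inr (.inr e) => .inr e

/-- The target. -/
def ts : Es N M → Qs N M
  | .inl e => .inl (e.1, e.2.succ)
  | .inr (.inl e) => .inr (e.1.castSucc, e.2)
  | .inr (.inr e) => .inl e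

section

variable {A : Type} [CommRing A]

/-- The function of a row. -/
def rf (m : Eb (N + 1) (M + 1) → A) : Es N M → A
  | .inl e => ps (fun j => m (e.1, j)) e.2.castSucc
  | .inr (.inl _) => 0
  | .inr (.inr e) => m e

/-- The function of a column. -/
def cf (m : Eb (N + 1) (M + 1) → A) : Es N M → A
  | .inl _ => 0
  | .inr (.inl e) => ps (fun i => m (i, e.2)) e.1.castSucc
  | .inr (.inr e) => m e

theorem bd_rf (m : Eb (N + 1) (M + 1) → A) (x : Fin (N + 1) × Fin (M + 1))
    (hm : ∑ j, m (x.1, j) = 0) : bd ss ts (rf m) (.inl x) = 0 := by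
  obtain ⟨i, j⟩ := x
  unfold bd
  rw [Fintype.sum_sum_type, Fintype.sum_sum_type]
  have h1 : ∑ e : Fin (N + 1) × Fin M, ((if ts (Sum.inl e : Es N M) = Sum.inl (i, j) then
      rf m (.inl e) else 0) - if ss (Sum.inl e : Es N M) = Sum.inl (i, j) then
      rf m (.inl e) else 0) = - m (i, j) := by
    rw [Fintype.sum_prod_type, Finset.sum_eq_single i]
    · have h2 : ∀ j' : Fin M, ((if ts (Sum.inl (i, j') : Es N M) = Sum.inl (i, j) then
          rf m (.inl (i, j')) else 0) - if ss (Sum.inl (i, j') : Es N M) = Sum.inl (i, j) then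
          rf m (.inl (i, j')) else 0) =
          (if j'.succ = j then ps (fun j => m (i, j)) j'.castSucc else 0) -
          (if j'.castSucc = j then ps (fun j => m (i, j)) j'.castSucc else 0) := by
        intro j'
        have h3 : (ts (Sum.inl (i, j') : Es N M) = Sum.inl (i, j)) ↔ j'.succ = j :=
          ⟨fun h => (Prod.mk.inj (Sum.inl.inj h)).2, fun h => by rw [← h]; rfl⟩
        have h4 : (ss (Sum.inl (i, j') : Es N M) = Sum.inl (i, j)) ↔ j'.castSucc = j :=
          ⟨fun h => (Prod.mk.inj (Sum.inl.inj h)).2, fun h => by rw [← h]; rfl⟩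
        simp only [h3, h4]
        rfl
      rw [Finset.sum_congr rfl fun j' _ => h2 j', Finset.sum_sub_distrib,
        ps_post (fun j => m (i, j)) hm, ← ps_pre (fun j => m (i, j)) j]
      ring
    · intro i' _ h
      refine Finset.sum_eq_zero fun j' _ => ?_
      rw [if_neg (fun h1 : ts (Sum.inl (i', j') : Es N M) = Sum.inl (i, j) =>
        h (Prod.mk.inj (Sum.inl.inj h1)).1),
        if_neg (fun h1 : ss (Sum.inl (i', j') : Es N M) = Sum.inl (i, j) =>
        h (Prod.mk.inj (Sum.inl.inj h1)).1), sub_zero]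
    · intro h
      exact absurd (mem_univ _) h
  have h2 : ∑ e : Fin N × Fin (M + 1), ((if ts (Sum.inr (Sum.inl e) : Es N M) = Sum.inl (i, j) then
      rf m (.inr (.inl e)) else 0) - if ss (Sum.inr (Sum.inl e) : Es N M) = Sum.inl (i, j) then
      rf m (.inr (.inl e)) else 0) = 0 := by
    refine Finset.sum_eq_zero fun e _ => ?_
    have h3 : rf m (.inr (.inl e) : Es N M) = 0 := rfl
    rw [h3]
    simp
  have h3 : ∑ e : Fin (N + 1) × Fin (M + 1), ((if ts (Sum.inr (Sum.inr e) : Es N M) =
      Sum.inl (i, j) then rf m (.inr (.inr e)) else 0) -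
      if ss (Sum.inr (Sum.inr e) : Es N M) = Sum.inl (i, j) then
      rf m (.inr (.inr e)) else 0) = m (i, j) := by
    rw [Finset.sum_eq_single (i, j)]
    · rw [if_pos (show ts (Sum.inr (Sum.inr (i, j)) : Es N M) = Sum.inl (i, j) from rfl),
        if_neg (show ¬ ss (Sum.inr (Sum.inr (i, j)) : Es N M) = Sum.inl (i, j) from
          fun h => by cases h), sub_zero]
      rfl
    · intro e _ h
      rw [if_neg (fun h1 : ts (Sum.inr (Sum.inr e) : Es N M) = Sum.inl (i, j) =>
        h (Sum.inl.inj h1)), if_neg (show ¬ ss (Sum.inr (Sum.inr e) : Es N M) = Sum.inl (i, j) from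
          fun h => by cases h), sub_zero]
    · intro h
      exact absurd (mem_univ _) h
  rw [h1, h2, h3]
  ring

theorem bd_cf (m : Eb (N + 1) (M + 1) → A) (x : Fin (N + 1) × Fin (M + 1))
    (hm : ∑ i, m (i, x.2) = 0) : bd ss ts (cf m) (.inr x) = 0 := by
  obtain ⟨i, j⟩ := x
  unfold bd
  rw [Fintype.sum_sum_type, Fintype.sum_sum_type]
  have h1 : ∑ e : Fin (N + 1) × Fin M, ((if ts (Sum.inl e : Es N M) = Sum.inr (i, j) then
      cf m (.inl e) else 0) - if ss (Sum.inl e : Es N M) = Sum.inr (i, j) then
      cf m (.inl e) else 0) = 0 := by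
    refine Finset.sum_eq_zero fun e _ => ?_
    have h3 : cf m (.inl e : Es N M) = 0 := rfl
    rw [h3]
    simp
  have h2 : ∑ e : Fin N × Fin (M + 1), ((if ts (Sum.inr (Sum.inl e) : Es N M) = Sum.inr (i, j) then
      cf m (.inr (.inl e)) else 0) - if ss (Sum.inr (Sum.inl e) : Es N M) = Sum.inr (i, j) then
      cf m (.inr (.inl e)) else 0) = m (i, j) := by
    rw [Fintype.sum_prod_type_right, Finset.sum_eq_single j]
    · have h2 : ∀ i' : Fin N, ((if ts (Sum.inr (Sum.inl (i', j)) : Es N M) = Sum.inr (i, j) then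
          cf m (.inr (.inl (i', j))) else 0) -
          if ss (Sum.inr (Sum.inl (i', j)) : Es N M) = Sum.inr (i, j) then
          cf m (.inr (.inl (i', j))) else 0) =
          (if i'.castSucc = i then ps (fun i => m (i, j)) i'.castSucc else 0) -
          (if i'.succ = i then ps (fun i => m (i, j)) i'.castSucc else 0) := by
        intro i'
        have h3 : (ts (Sum.inr (Sum.inl (i', j)) : Es N M) = Sum.inr (i, j)) ↔ i'.castSucc = i :=
          ⟨fun h => (Prod.mk.inj (Sum.inr.inj h)).1, fun h => by rw [← h]; rfl⟩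
        have h4 : (ss (Sum.inr (Sum.inl (i', j)) : Es N M) = Sum.inr (i, j)) ↔ i'.succ = i :=
          ⟨fun h => (Prod.mk.inj (Sum.inr.inj h)).1, fun h => by rw [← h]; rfl⟩
        simp only [h3, h4]
        rfl
      rw [Finset.sum_congr rfl fun i' _ => h2 i', Finset.sum_sub_distrib,
        ps_post (fun i => m (i, j)) hm, ← ps_pre (fun i => m (i, j)) i]
      ring
    · intro j' _ h
      refine Finset.sum_eq_zero fun i' _ => ?_
      rw [if_neg (fun h1 : ts (Sum.inr (Sum.inl (i', j')) : Es N M) = Sum.inr (i, j) =>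
        h (Prod.mk.inj (Sum.inr.inj h1)).2),
        if_neg (fun h1 : ss (Sum.inr (Sum.inl (i', j')) : Es N M) = Sum.inr (i, j) =>
        h (Prod.mk.inj (Sum.inr.inj h1)).2), sub_zero]
    · intro h
      exact absurd (mem_univ _) h
  have h3 : ∑ e : Fin (N + 1) × Fin (M + 1), ((if ts (Sum.inr (Sum.inr e) : Es N M) =
      Sum.inr (i, j) then cf m (.inr (.inr e)) else 0) -
      if ss (Sum.inr (Sum.inr e) : Es N M) = Sum.inr (i, j) then
      cf m (.inr (.inr e)) else 0) = - m (i, j) := by
    rw [Finset.sum_eq_single (i, j)]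
    · rw [if_neg (show ¬ ts (Sum.inr (Sum.inr (i, j)) : Es N M) = Sum.inr (i, j) from
          fun h => by cases h),
        if_pos (show ss (Sum.inr (Sum.inr (i, j)) : Es N M) = Sum.inr (i, j) from rfl), zero_sub]
      rfl
    · intro e _ h
      rw [if_neg (show ¬ ts (Sum.inr (Sum.inr e) : Es N M) = Sum.inr (i, j) from
          fun h => by cases h), if_neg (fun h1 : ss (Sum.inr (Sum.inr e) : Es N M) = Sum.inr (i, j) =>
        h (Sum.inr.inj h1)), sub_zero]
    · intro h
      exact absurd (mem_univ _) h
  rw [h1, h2, h3]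
  ring

/-! ### The transfer -/

/-- The row or column of a class. -/
def lc : Cs N M → Qb (N + 1) (M + 1)
  | .inl (.inl e) => .inl e.1
  | .inl (.inr (.inl e)) => .inr e.2
  | .inl (.inr (.inr e)) => .inr e.2
  | .inr (.inl e) => .inl e.1
  | .inr (.inr e) => .inr e.2

/-- The transferred function. -/
def tf (m : Eb (N + 1) (M + 1) → A) : Qb (N + 1) (M + 1) → Es N M → A
  | .inl _ => rf m
  | .inr _ => cf m

theorem ps_add {n : ℕ} (m m' : Fin (n + 1) → A) (j : Fin (n + 1)) :
    ps (fun i => m i + m' i) j = ps m j + ps m' j := Finset.sum_add_distrib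

theorem tf_add (m m' : Eb (N + 1) (M + 1) → A) (v : Qb (N + 1) (M + 1)) :
    tf (m + m') v = tf m v + tf m' v := by
  funext e
  rcases v with i | j
  · show rf (m + m') e = rf m e + rf m' e
    rcases e with e | e | e
    · exact ps_add _ _ _
    · exact (add_zero 0).symm
    · rfl
  · show cf (m + m') e = cf m e + cf m' e
    rcases e with e | e | e
    · exact (add_zero 0).symm
    · exact ps_add _ _ _
    · rfl

theorem tf_zero (v : Qb (N + 1) (M + 1)) : tf (0 : Eb (N + 1) (M + 1) → A) v = 0 := by
  have h := tf_add (0 : Eb (N + 1) (M + 1) → A) 0 v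
  rw [add_zero] at h
  exact left_eq_add.1 h

open Classical in
/-- The transferred function, seen from a class. -/
noncomputable def tc (m : Qb (N + 1) (M + 1) → Eb (N + 1) (M + 1) → A) (c : Cs N M) : Es N M → A :=
  fun e => if See ss ts c e then tf (m (lc c)) (lc c) e else 0

theorem tc_mem (x : XX (A := A) (sb (N := N + 1) (M := M + 1)) tb) (c : Cs N M) :
    tc (fun v => x.1 (.inr v)) c ∈ GG (A := A) ss ts c := by
  refine ⟨fun e he => if_neg he, fun v hv => ?_⟩
  subst hv
  have h1 : bd ss ts (tc (fun v => x.1 (.inr v)) (.inr v)) v =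
      bd ss ts (tf (x.1 (.inr (lc (.inr v : Cs N M)))) (lc (.inr v : Cs N M))) v :=
    bd_congr ss ts fun e he => if_pos he
  rw [h1]
  rcases v with ⟨i, j⟩ | ⟨i, j⟩
  · refine bd_rf _ _ ?_
    have h2 := (x.2 (.inr (.inl i))).2 _ rfl
    rw [bd_row, neg_eq_zero] at h2
    exact h2
  · refine bd_cf _ _ ?_
    have h2 := (x.2 (.inr (.inr j))).2 _ rfl
    rw [bd_col] at h2
    exact h2

/-- The transfer of a family. -/
noncomputable def tr (x : XX (A := A) (sb (N := N + 1) (M := M + 1)) tb) :
    XX (A := A) (ss (N := N) (M := M)) ts :=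
  ⟨fun c => tc (fun v => x.1 (.inr v)) c, fun c => tc_mem x c⟩

theorem tr_add (x y : XX (A := A) (sb (N := N + 1) (M := M + 1)) tb) : tr (x + y) = tr x + tr y := by
  refine Subtype.ext (funext fun c => funext fun e => ?_)
  show tc (fun v => (x + y).1 (.inr v)) c e = tc (fun v => x.1 (.inr v)) c e +
    tc (fun v => y.1 (.inr v)) c e
  unfold tc
  by_cases h : See ss ts c e
  · rw [if_pos h, if_pos h, if_pos h]
    exact congrFun (tf_add (x.1 (.inr (lc c))) (y.1 (.inr (lc c))) (lc c)) e
  · rw [if_neg h, if_neg h, if_neg h, add_zero]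

theorem tr_zero_at {x : XX (A := A) (sb (N := N + 1) (M := M + 1)) tb} {c : Cs N M}
    (h : x.1 (.inr (lc c)) = 0) : (tr x).1 c = 0 := by
  classical
  funext e
  show (if See ss ts c e then tf (x.1 (.inr (lc c))) (lc c) e else 0) = 0
  rw [h, tf_zero]
  simp

/-! ### The twists -/

variable (d : A)

/-- The twist of the complete bipartite graph. -/
def τb : Qb (N + 1) (M + 1) → Eb (N + 1) (M + 1) → A
  | .inl i => fun e => if i = 0 ∧ e = (0, 0) then d else 0
  | .inr _ => fun _ => 0

/-- The twist of the small graph. -/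
def τs : Qs N M → Es N M → A
  | .inl x, .inr (.inr e) => if x = (0, 0) ∧ e = (0, 0) then d else 0
  | _, _ => 0

/-- The value with the twist. -/
def tv (m : Qb (N + 1) (M + 1) → Eb (N + 1) (M + 1) → A) : Qb (N + 1) (M + 1) → Es N M → A
  | .inl i, .inl e => ps (fun j => m (.inl i) (e.1, j)) e.2.castSucc
  | .inl _, .inr (.inl _) => 0
  | .inl i, .inr (.inr e) => m (.inl i) e + τb d (.inl i) e
  | .inr _, .inl _ => 0
  | .inr j, .inr (.inl e) => ps (fun i => m (.inr j) (i, e.2)) e.1.castSucc
  | .inr j, .inr (.inr e) => m (.inr j) e + τb d (.inr j) e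

theorem tc_val (m : Qb (N + 1) (M + 1) → Eb (N + 1) (M + 1) → A) (c : Cs N M) (e : Es N M)
    (he : See ss ts c e) : tc m c e + tw (τs d) c e = tv d m (lc c) e := by
  have h1 : tc m c e = tf (m (lc c)) (lc c) e := if_pos he
  rw [h1]
  rcases c with (c | c | c) | (c | c)
  · -- row step
    have h2 : e = .inl c := he
    subst h2
    exact add_zero _
  · have h2 : e = .inr (.inl c) := he
    subst h2
    exact add_zero _
  · have h2 : e = .inr (.inr c) := he
    subst h2
    rfl
  · -- row node
    rcases e with e | e | e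
    · exact add_zero _
    · exact add_zero _
    · show m (.inl c.1) e + (if c = (0, 0) ∧ e = (0, 0) then d else 0) =
        m (.inl c.1) e + (if c.1 = 0 ∧ e = (0, 0) then d else 0)
      congr 1
      have h3 : e = c := by
        rcases he with h | h
        · exact Sum.inl.inj h
        · cases h
      subst h3
      by_cases h4 : e = (0, 0)
      · subst h4
        rw [if_pos ⟨rfl, rfl⟩, if_pos ⟨rfl, rfl⟩]
      · rw [if_neg fun h => h4 h.2, if_neg fun h => h4 h.2]
  · rcases e with e | e | e
    · exact add_zero _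
    · exact add_zero _
    · rfl

/-- The rows and columns which see an edge. -/
theorem see_lc {c : Cs N M} {e : Es N M} (he : See ss ts c e) :
    (∀ x, e = .inl x → lc c = .inl x.1) ∧ (∀ x, e = .inr (.inl x) → lc c = .inr x.2) ∧
      ∀ x, e = .inr (.inr x) → lc c = .inl x.1 ∨ lc c = .inr x.2 := by
  rcases c with (c | c | c) | (c | c)
  · have h2 : e = .inl c := he
    subst h2
    refine ⟨fun x h => ?_, fun x h => ?_, fun x h => ?_⟩
    · rw [← Sum.inl.inj h]
      rfl
    · cases h
    · cases h
  · have h2 : e = .inr (.inl c) := he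
    subst h2
    refine ⟨fun x h => ?_, fun x h => ?_, fun x h => ?_⟩
    · cases h
    · rw [← Sum.inl.inj (Sum.inr.inj h)]
      rfl
    · cases h
  · have h2 : e = .inr (.inr c) := he
    subst h2
    refine ⟨fun x h => ?_, fun x h => ?_, fun x h => ?_⟩
    · cases h
    · cases h
    · rw [← Sum.inr.inj (Sum.inr.inj h)]
      exact Or.inr rfl
  · refine ⟨fun x h => ?_, fun x h => ?_, fun x h => ?_⟩
    · subst h
      rcases he with h | h
      · rw [← Sum.inl.inj h]
        rfl
      · rw [← Sum.inl.inj h]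
        rfl
    · subst h
      rcases he with h | h
      · cases h
      · cases h
    · subst h
      rcases he with h | h
      · rw [← Sum.inl.inj h]
        exact Or.inl rfl
      · cases h
  · refine ⟨fun x h => ?_, fun x h => ?_, fun x h => ?_⟩
    · subst h
      rcases he with h | h
      · cases h
      · cases h
    · subst h
      rcases he with h | h
      · rw [← Sum.inr.inj h]
        rfl
      · rw [← Sum.inr.inj h]
        rfl
    · subst h
      rcases he with h | h
      · cases h
      · rw [← Sum.inr.inj h]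
        exact Or.inr rfl

/-- The transfer of a local solution. -/
theorem tr_sol {x : XX (A := A) (sb (N := N + 1) (M := M + 1)) tb}
    {W : Finset (Cb (N + 1) (M + 1))} (hx : x ∈ SolS sb tb (τb d) W) {S : Finset (Cs N M)}
    (hS : ∀ c ∈ S, Sum.inr (lc c) ∈ W) : tr x ∈ SolS ss ts (τs d) S := by
  intro c hc c' hc' e he he'
  show tc (fun v => x.1 (.inr v)) c e + tw (τs d) c e =
    tc (fun v => x.1 (.inr v)) c' e + tw (τs d) c' e
  rw [tc_val d _ c e he, tc_val d _ c' e he']
  have h1 := see_lc he
  have h2 := see_lc he'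
  have h3 : ∀ y : Fin (N + 1) × Fin (M + 1), Sum.inr (Sum.inl y.1) ∈ W → Sum.inr (Sum.inr y.2) ∈ W →
      x.1 (.inr (.inl y.1)) y + τb d (.inl y.1) y = x.1 (.inr (.inr y.2)) y + τb d (.inr y.2) y :=
    fun y h4 h5 => hx _ h4 _ h5 y (see_row.2 rfl) (see_col.2 rfl)
  rcases e with y | y | y
  · rw [h1.1 y rfl, h2.1 y rfl]
  · rw [h1.2.1 y rfl, h2.2.1 y rfl]
  · have h4 := hS c hc
    have h5 := hS c' hc'
    rcases h1.2.2 y rfl with h6 | h6 <;> rcases h2.2.2 y rfl with h7 | h7
    · rw [h6, h7]
    · rw [h6] at h4 ⊢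
      rw [h7] at h5 ⊢
      exact h3 y h4 h5
    · rw [h6] at h4 ⊢
      rw [h7] at h5 ⊢
      exact (h3 y h5 h4).symm
    · rw [h6, h7]

theorem sum_τb : ∑ v, bd sb tb (τb (N := N) (M := M) d v) v = - d := by
  rw [Finset.sum_eq_single (Sum.inl 0)]
  · rw [bd_row, Finset.sum_eq_single 0]
    · have h : τb (N := N) (M := M) d (Sum.inl 0) (0, 0) = d := by
        show (if (0 : Fin (N + 1)) = 0 ∧ ((0, 0) : Eb (N + 1) (M + 1)) = (0, 0) then d else 0) = d
        rw [if_pos ⟨rfl, rfl⟩]
      rw [h]
    · intro j _ h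
      exact if_neg fun h1 => h (Prod.mk.inj h1.2).2
    · intro h
      exact absurd (mem_univ _) h
  · intro v _ hv
    have h : τb (N := N) (M := M) d v = 0 := by
      funext e
      rcases v with i | j
      · exact if_neg fun h1 => hv (by rw [h1.1])
      · rfl
    rw [h, bd_zero]
  · intro h
    exact absurd (mem_univ _) h

theorem sum_τs : ∑ v, bd ss ts (τs (N := N) (M := M) d v) v = d := by
  classical
  rw [Finset.sum_eq_single (Sum.inl (0, 0))]
  · have h : τs (N := N) (M := M) d (Sum.inl (0, 0)) = fun e => d * (Pi.single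
        (Sum.inr (Sum.inr (0, 0)) : Es N M) (1 : A) : Es N M → A) e := by
      funext e
      rcases e with e | e | e
      · show (0 : A) = _
        rw [Pi.single_eq_of_ne (fun h => by cases h), mul_zero]
      · show (0 : A) = _
        rw [Pi.single_eq_of_ne (fun h => by cases h), mul_zero]
      · show (if (0, 0) = (0, 0) ∧ e = (0, 0) then d else 0) = _
        by_cases h : e = (0, 0)
        · subst h
          rw [if_pos ⟨rfl, rfl⟩, Pi.single_eq_same, mul_one]
        · rw [if_neg (fun h1 => h h1.2),
            Pi.single_eq_of_ne (fun h1 => h (Sum.inr.inj (Sum.inr.inj h1))), mul_zero]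
    rw [h, bd_mul, bd_single, if_pos (show (Sum.inl (0, 0) : Qs N M) = ts (Sum.inr (Sum.inr (0, 0)))
      from rfl), if_neg (show ¬ (Sum.inl (0, 0) : Qs N M) = ss (Sum.inr (Sum.inr (0, 0)))
      from fun h => by cases h)]
    ring
  · intro v _ hv
    have h : τs (N := N) (M := M) d v = 0 := by
      funext e
      rcases v with x | x
      · rcases e with e | e | e
        · rfl
        · rfl
        · exact if_neg fun h1 => hv (by rw [h1.1])
      · rfl
    rw [h, bd_zero]
  · intro h
    exact absurd (mem_univ _) h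

end

/-! ### The size -/

theorem see_three (c : Cs N M) : ∃ S : Finset (Es N M), S.card ≤ 3 ∧ ∀ e, See ss ts c e → e ∈ S := by
  classical
  have h1 : ∀ {n : ℕ} (j : Fin (n + 1)), (univ.filter fun i : Fin n => i.succ = j).card ≤ 1 := by
    intro n j
    rw [Finset.card_le_one]
    intro x hx y hy
    rw [mem_filter] at hx hy
    exact Fin.succ_injective _ (hx.2.trans hy.2.symm)
  have h2 : ∀ {n : ℕ} (j : Fin (n + 1)), (univ.filter fun i : Fin n => i.castSucc = j).card ≤ 1 := by
    intro n j
    rw [Finset.card_le_one]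
    intro x hx y hy
    rw [mem_filter] at hx hy
    exact Fin.castSucc_injective _ (hx.2.trans hy.2.symm)
  rcases c with c | ⟨i, j⟩ | ⟨i, j⟩
  · exact ⟨{c}, by rw [card_singleton]; omega, fun e he => mem_singleton.2 he⟩
  · refine ⟨insert (Sum.inr (Sum.inr (i, j)))
      ((univ.filter fun t : Fin M => t.succ = j).image (fun t => Sum.inl (i, t)) ∪
      (univ.filter fun t : Fin M => t.castSucc = j).image (fun t => Sum.inl (i, t))), ?_, ?_⟩
    · refine (card_insert_le _ _).trans ?_
      have h3 := card_union_le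
        ((univ.filter fun t : Fin M => t.succ = j).image (fun t => (Sum.inl (i, t) : Es N M)))
        ((univ.filter fun t : Fin M => t.castSucc = j).image (fun t => (Sum.inl (i, t) : Es N M)))
      have h4 := (card_image_le (s := univ.filter fun t : Fin M => t.succ = j)
        (f := fun t => (Sum.inl (i, t) : Es N M))).trans (h1 j)
      have h5 := (card_image_le (s := univ.filter fun t : Fin M => t.castSucc = j)
        (f := fun t => (Sum.inl (i, t) : Es N M))).trans (h2 j)
      omega
    · intro e he
      rw [mem_insert, mem_union, mem_image, mem_image]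
      rcases e with e | e | e
      · rcases he with h | h
        · have h3 := Prod.mk.inj (Sum.inl.inj h)
          exact Or.inr (Or.inl ⟨e.2, mem_filter.2 ⟨mem_univ _, h3.2⟩, by rw [← h3.1]⟩)
        · have h3 := Prod.mk.inj (Sum.inl.inj h)
          exact Or.inr (Or.inr ⟨e.2, mem_filter.2 ⟨mem_univ _, h3.2⟩, by rw [← h3.1]⟩)
      · rcases he with h | h
        · cases h
        · cases h
      · rcases he with h | h
        · have h3 : e = (i, j) := Sum.inl.inj h
          rw [h3]
          exact Or.inl rfl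
        · cases h
  · refine ⟨insert (Sum.inr (Sum.inr (i, j)))
      ((univ.filter fun t : Fin N => t.succ = i).image (fun t => Sum.inr (Sum.inl (t, j))) ∪
      (univ.filter fun t : Fin N => t.castSucc = i).image (fun t => Sum.inr (Sum.inl (t, j)))), ?_, ?_⟩
    · refine (card_insert_le _ _).trans ?_
      have h3 := card_union_le
        ((univ.filter fun t : Fin N => t.succ = i).image
          (fun t => (Sum.inr (Sum.inl (t, j)) : Es N M)))
        ((univ.filter fun t : Fin N => t.castSucc = i).image
          (fun t => (Sum.inr (Sum.inl (t, j)) : Es N M)))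
      have h4 := (card_image_le (s := univ.filter fun t : Fin N => t.succ = i)
        (f := fun t => (Sum.inr (Sum.inl (t, j)) : Es N M))).trans (h1 i)
      have h5 := (card_image_le (s := univ.filter fun t : Fin N => t.castSucc = i)
        (f := fun t => (Sum.inr (Sum.inl (t, j)) : Es N M))).trans (h2 i)
      omega
    · intro e he
      rw [mem_insert, mem_union, mem_image, mem_image]
      rcases e with e | e | e
      · rcases he with h | h
        · cases h
        · cases h
      · rcases he with h | h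
        · have h3 := Prod.mk.inj (Sum.inr.inj h)
          exact Or.inr (Or.inr ⟨e.1, mem_filter.2 ⟨mem_univ _, h3.1⟩, by rw [← h3.2]⟩)
        · have h3 := Prod.mk.inj (Sum.inr.inj h)
          exact Or.inr (Or.inl ⟨e.1, mem_filter.2 ⟨mem_univ _, h3.1⟩, by rw [← h3.2]⟩)
      · rcases he with h | h
        · cases h
        · have h3 : e = (i, j) := Sum.inr.inj h
          rw [h3]
          exact Or.inl rfl

theorem card_Cs : Fintype.card (Cs N M) ≤ 5 * ((N + 1) * (M + 1)) := by
  rw [Fintype.card_sum, Fintype.card_sum, Fintype.card_sum, Fintype.card_sum, Fintype.card_prod,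
    Fintype.card_prod, Fintype.card_prod, Fintype.card_fin, Fintype.card_fin, Fintype.card_fin,
    Fintype.card_fin]
  have h1 : (N + 1) * M ≤ (N + 1) * (M + 1) := Nat.mul_le_mul_left _ (Nat.le_succ _)
  have h2 : N * (M + 1) ≤ (N + 1) * (M + 1) := Nat.mul_le_mul_right _ (Nat.le_succ _)
  omega

end Pool.Agent.K4H90.AllP
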