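import Pool.Agent.K4H90.AllP.PmB
import Pool.Agent.K4H90.AllP.Small
import Pool.Agent.K4H90.AllF.Main

/-!
# Tournaments of polynomial size for the invertible-map test over all fields
-/

set_option autoImplicit false
set_option linter.unusedSectionVars false

namespace Pool.Agent.K4H90.AllP

open Finset Pool.Agent.TH658.Dg Pool.Agent.TH658.Sos Pool.Agent.K4H90.AllF

section

variable {N M : ℕ} {A : Type} [CommRing A] [Fintype A]

/-- The level of a vertex. -/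
def lvs {ℓ : ℕ} : VV A (ss (N := N) (M := M)) ts ℓ → Finset (Cb (N + 1) (M + 1))
  | .inl x => {Sum.inr (lc x.1.1)}
  | .inr _ => ∅

/-- The local isomorphisms of the tournaments. -/
noncomputable def actP (K : ℕ) (hM : K < M + 1) (hN : K < N + 1) (d : A) (ℓ : ℕ)
    [NeZero ℓ] : Act (sys K hM hN (τb d))
      (arcV (ℓ := ℓ) (ss (N := N) (M := M)) ts (0 : Qs N M → Es N M → A))
      (arcV (ℓ := ℓ) (ss (N := N) (M := M)) ts (τs d)) where
  b x := bb ss ts (tr x)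
  lv := lvs
  lv' := lvs
  c := 1
  inv x n u hn := by
    rcases u with u | u
    · show Sum.inl _ = Sum.inl _
      congr 1
      refine Subtype.ext (Prod.ext rfl ?_)
      show u.1.2 + (tr (x + n)).1 u.1.1 = u.1.2 + (tr x).1 u.1.1
      have h1 : (tr n).1 u.1.1 = 0 := tr_zero_at (hn _ (Finset.mem_singleton_self _))
      rw [tr_add]
      show u.1.2 + ((tr x).1 u.1.1 + (tr n).1 u.1.1) = u.1.2 + (tr x).1 u.1.1
      rw [h1, add_zero]
    · rfl
  lev x u := by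
    rcases u with u | u <;> rfl
  size u := by
    rcases u with u | u
    · exact (Finset.card_singleton (Sum.inr (lc u.1.1) : Cb (N + 1) (M + 1))).le
    · exact Nat.zero_le 1
  iso u u' x hx := by
    refine arcV_bb ss ts (τs d) (tr_sol d hx ?_)
    intro c hc
    rw [mem_union] at hc
    have h1 : ∀ u : VV A (ss (N := N) (M := M)) ts ℓ, c ∈ lvl ss ts u →
        (Sum.inr (lc c) : Cb (N + 1) (M + 1)) ∈ lvs u := by
      intro u hu
      rcases u with u | u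
      · have h2 : c = u.1.1 := Finset.mem_singleton.1 hu
        rw [h2]
        exact Finset.mem_singleton_self _
      · exact absurd hu (Finset.notMem_empty _)
    exact mem_union.2 (hc.imp (h1 u) (h1 u'))

theorem actP_torsor (K : ℕ) (hM : K < M + 1) (hN : K < N + 1) (d : A)
    (ℓ : ℕ) [NeZero ℓ] : (actP K hM hN d ℓ).Torsor := by
  have h00 : tr (0 : XX (A := A) (sb (N := N + 1) (M := M + 1)) tb) = 0 := by
    have h := tr_add (0 : XX (A := A) (sb (N := N + 1) (M := M + 1)) tb) 0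
    rw [add_zero] at h
    exact left_eq_add.1 h
  have h0 : ∀ x : VV A (ss (N := N) (M := M)) ts ℓ, bb ss ts (tr 0) x = x := by
    intro x
    rw [h00]
    rcases x with x | x
    · show Sum.inl _ = Sum.inl _
      congr 1
      refine Subtype.ext (Prod.ext rfl ?_)
      show x.1.2 + 0 = x.1.2
      rw [add_zero]
    · rfl
  intro x h u
  show bb ss ts (tr (x + h)) u = bb ss ts (tr x) ((bb ss ts (tr 0)).symm (bb ss ts (tr h) u))
  have h1 : (bb ss ts (tr 0)).symm (bb ss ts (tr h) u) = bb ss ts (tr h) u := by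
    rw [Equiv.symm_apply_eq, h0]
  rw [h1, tr_add]
  rcases u with u | u
  · show Sum.inl _ = Sum.inl _
    congr 1
    refine Subtype.ext (Prod.ext rfl ?_)
    show u.1.2 + ((tr x).1 u.1.1 + (tr h).1 u.1.1) = u.1.2 + (tr h).1 u.1.1 + (tr x).1 u.1.1
    abel
  · rfl

end

theorem bound (k K p N M v c r : ℕ) (hk : 1 ≤ k) (hK : K = 4 * k + 2) (hp : p ≤ 2 * (K + 1))
    (hN : N = 2 * p - 1 + K) (hM : M = p - 1 + K) (hv : v ≤ 6 * c * r) (hc : c ≤ 5 * (N * M))
    (hr : r ≤ c * (p ^ 2) ^ 3) : v ≤ 10 ^ 15 * k ^ 10 := by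
  have h1 : p ≤ 14 * k := by omega
  have h2 : N ≤ 34 * k := by omega
  have h3 : M ≤ 20 * k := by omega
  have h4 : c ≤ 3400 * k ^ 2 := by
    have h5 : N * M ≤ (34 * k) * (20 * k) := Nat.mul_le_mul h2 h3
    have h6 : (34 * k) * (20 * k) = 680 * k ^ 2 := by ring
    omega
  have h5 : (p ^ 2) ^ 3 ≤ (14 * k) ^ 6 := by
    rw [← pow_mul]
    exact Nat.pow_le_pow_left h1 _
  have h6 : r ≤ (3400 * k ^ 2) * (14 * k) ^ 6 := hr.trans (Nat.mul_le_mul h4 h5)
  have h7 : v ≤ 6 * (3400 * k ^ 2) * ((3400 * k ^ 2) * (14 * k) ^ 6) :=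
    hv.trans (Nat.mul_le_mul (Nat.mul_le_mul_left _ h4) h6)
  have h8 : 6 * (3400 * k ^ 2) * ((3400 * k ^ 2) * (14 * k) ^ 6) = 522248616960000 * k ^ 10 := by
    ring
  rw [h8] at h7
  refine h7.trans (Nat.mul_le_mul_right _ (by norm_num))

/-- The tournaments. -/
theorem exists_tours (k : ℕ) (hk : 1 ≤ k) :
    ∃ (V : Type) (_ : Fintype V) (T T' : V → V → Prop),
      Fintype.card V ≤ 10 ^ 15 * k ^ 10 ∧ IsTournament T ∧ IsTournament T' ∧
      (¬ ∃ φ : V ≃ V, ∀ x y, T x y ↔ T' (φ x) (φ y)) ∧ IMEquiv 1 k T T' := by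
  obtain ⟨K, hK⟩ : ∃ K, K = 4 * k + 2 := ⟨_, rfl⟩
  obtain ⟨p, hp, hKp, hp2⟩ := Nat.exists_prime_lt_and_le_two_mul (K + 1) (by omega)
  have : Fact p.Prime := ⟨hp⟩
  obtain ⟨N, hN⟩ : ∃ N, N + 1 = 2 * p - 1 + K := ⟨2 * p - 1 + K - 1, by omega⟩
  obtain ⟨M, hM⟩ : ∃ M, M + 1 = p - 1 + K := ⟨p - 1 + K - 1, by omega⟩
  have hKN : K < N + 1 := by omega
  have hKM : K < M + 1 := by omega
  let A : Type := ZMod (p ^ 2)
  have : NeZero (p ^ 2) := ⟨pow_ne_zero _ hp.ne_zero⟩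
  obtain ⟨j, hj⟩ : ∃ j, p ^ 2 = 2 * j + 1 := (Odd.pow (hp.odd_of_ne_two (by omega)))
  have hA2 : ∀ a : A, a + a = 0 → a = 0 := no_two hj
  have hd0 : (p : A) ≠ 0 := by
    intro h
    rw [ZMod.natCast_eq_zero_iff] at h
    have h1 := Nat.le_of_dvd hp.pos h
    have h2 := hp.two_le
    nlinarith
  have hτ0 : ∑ v, bd ss ts (τs (N := N) (M := M) (p : A) v) v ≠ 0 := by
    rw [sum_τs]
    exact hd0
  let ℓ : ℕ := 2 * Fintype.card (RV A (ss (N := N) (M := M)) ts) + 3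
  have : NeZero ℓ := ⟨by omega⟩
  have hℓ2 : ∀ a : ZMod ℓ, a + a = 0 → a = 0 :=
    no_two (j := Fintype.card (RV A (ss (N := N) (M := M)) ts) + 1) (by omega)
  have hcA : Fintype.card A = p ^ 2 := ZMod.card _
  have hcQ : 0 < Fintype.card (Cs N M) := Fintype.card_pos_iff.2 ⟨.inr (.inl (0, 0))⟩
  refine ⟨VV A (ss (N := N) (M := M)) ts ℓ, inferInstance,
    arcV ss ts 0, arcV ss ts (τs (p : A)), ?_, arcV_tour _ _ _ hA2 hℓ2, arcV_tour _ _ _ hA2 hℓ2,
    not_iso ss ts (τs (p : A)) hτ0 rfl hℓ2, ?_⟩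
  · refine bound k K p (N + 1) (M + 1) _ _ _ hk hK hp2 hN hM (card_VV ss ts rfl hcQ) card_Cs ?_
    have h1 := card_RV (A := A) (ss (N := N) (M := M)) ts see_three
      (Fintype.card_pos_iff.2 ⟨0⟩)
    refine h1.trans (le_of_eq ?_)
    congr 2
  have : Finite (XX (A := A) (sb (N := N + 1) (M := M + 1)) tb) := Subtype.finite
  have : Fintype (XX (A := A) (sb (N := N + 1) (M := M + 1)) tb) := Fintype.ofFinite _
  obtain ⟨n, hn⟩ : ∃ n, Fintype.card (XX (A := A) (sb (N := N + 1) (M := M + 1)) tb) = p ^ n := by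
    have h1 := AddSubgroup.card_addSubgroup_dvd_card
      (XX (A := A) (sb (N := N + 1) (M := M + 1)) tb)
    have h2 : Nat.card (Cb (N + 1) (M + 1) → Eb (N + 1) (M + 1) → A) =
        p ^ (2 * Nat.card (Eb (N + 1) (M + 1)) * Nat.card (Cb (N + 1) (M + 1))) := by
      rw [Nat.card_fun, Nat.card_fun, pow_mul, pow_mul]
      congr 2
      exact Nat.card_zmod _
    rw [h2, Nat.dvd_prime_pow hp] at h1
    obtain ⟨n, -, h4⟩ := h1
    exact ⟨n, by rw [← Nat.card_eq_fintype_card]; exact h4⟩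
  refine imEquivAll (A := actP K hKM hKN (p : A) ℓ) (actP_torsor _ _ _ _ _) hn ?_ ?_ ?_ ?_
  · show 4 * (1 * k) ≤ K
    omega
  · show 1 + 1 ≤ K
    omega
  · intro F _ _ W₀ M₀ hW hM₀
    have hW' : W₀.card ≤ 1 * k := hW
    exact hasPM (p := p) (K := K) (by omega) (by omega) (by omega) hKM F _ (sum_τb (p : A)) W₀
      (by omega) M₀ hM₀ (r := 1 * (2 * k)) (by omega)
  · intro F _ _ W₀ M₀ hW hM₀
    have hW' : W₀.card ≤ 1 * k := hW
    exact hasPM0 (K := K) hKM hKN F W₀ (by omega) M₀ hM₀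

end Pool.Agent.K4H90.AllP
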