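import Pool.Agent.K4H90.AllP.Bip
import Pool.Agent.K4H90.AllP.Emb

/-!
# The local solutions modulo `p` on the complete bipartite graph
-/

set_option autoImplicit false
set_option linter.unusedSectionVars false

namespace Pool.Agent.K4H90.AllP

open Finset Pool.Agent.TH658.Dg Pool.Agent.TH658.Sos Pool.Agent.K4H90.AllF

section

variable {N M n m : ℕ} {A : Type} [CommRing A] (a : Fin n ↪ Fin N) (b : Fin m ↪ Fin M)

open Classical in
/-- The partial matching. -/
noncomputable def mt (σ : Fin m ↪ Fin n) : Eb N M → A := fun e =>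
  if ∃ j, a (σ j) = e.1 ∧ b j = e.2 then 1 else 0

open Classical in
/-- The excess. -/
noncomputable def be : Qb N M → A
  | .inl i => if ∃ u, a u = i then 1 else 0
  | .inr j => - if ∃ t, b t = j then 1 else 0

open Classical in
theorem bd_mt_row (σ : Fin m ↪ Fin n) (i : Fin N) :
    bd sb tb (mt (A := A) a b σ) (.inl i) = - if ∃ j, a (σ j) = i then 1 else 0 := by
  rw [bd_row]
  congr 1
  unfold mt
  by_cases h : ∃ j, a (σ j) = i
  · rw [if_pos h]
    obtain ⟨j, hj⟩ := h
    rw [Finset.sum_eq_single (b j)]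
    · rw [if_pos ⟨j, hj, rfl⟩]
    · intro j' _ h1
      rw [if_neg]
      rintro ⟨j₁, h2, h3⟩
      have h4 : σ j₁ = σ j := a.injective (h2.trans hj.symm)
      rw [σ.injective h4] at h3
      exact h1 h3.symm
    · intro h1
      exact absurd (mem_univ _) h1
  · rw [if_neg h]
    refine Finset.sum_eq_zero fun j' _ => ?_
    rw [if_neg]
    rintro ⟨j₁, h2, h3⟩
    exact h ⟨j₁, h2⟩

open Classical in
theorem bd_mt_col (σ : Fin m ↪ Fin n) (j : Fin M) :
    bd sb tb (mt (A := A) a b σ) (.inr j) = if ∃ t, b t = j then 1 else 0 := by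
  rw [bd_col]
  unfold mt
  by_cases h : ∃ t, b t = j
  · rw [if_pos h]
    obtain ⟨t, ht⟩ := h
    rw [Finset.sum_eq_single (a (σ t))]
    · rw [if_pos ⟨t, rfl, ht⟩]
    · intro i _ h1
      rw [if_neg]
      rintro ⟨t', h2, h3⟩
      have h4 : t' = t := b.injective (h3.trans ht.symm)
      rw [h4] at h2
      exact h1 h2.symm
    · intro h1
      exact absurd (mem_univ _) h1
  · rw [if_neg h]
    refine Finset.sum_eq_zero fun i _ => ?_
    rw [if_neg]
    rintro ⟨t', h2, h3⟩
    exact h ⟨t', h3⟩

theorem sum_ex {k l : ℕ} (f : Fin k ↪ Fin l) [∀ i, Decidable (∃ u, f u = i)] :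
    ∑ i, (if ∃ u, f u = i then (1 : A) else 0) = k := by
  classical
  rw [Finset.sum_boole]
  congr 1
  have h : (univ.filter fun i => ∃ u, f u = i) = univ.map f := by
    ext i
    simp
  rw [h, card_map, card_univ, Fintype.card_fin]

theorem sum_be : ∑ v, be (A := A) a b v = (n : A) - m := by
  classical
  rw [Fintype.sum_sum_type]
  have h1 : ∑ i, be (A := A) a b (.inl i) = n := by
    unfold be
    exact sum_ex a
  have h2 : ∑ i, be (A := A) a b (.inr i) = - m := by
    unfold be
    rw [Finset.sum_neg_distrib]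
    congr 1
    exact sum_ex b
  rw [h1, h2, sub_eq_add_neg]

end

section

variable {p K N M : ℕ} [Fact p.Prime] {A : Type} [CommRing A]

/-- The families modulo `p`. -/
theorem hasPM (hK : K < p) (hN : 2 * p - 1 + K ≤ N) (hM : p - 1 + K ≤ M) (hM' : K < M)
    (F : Type) [Field F] [CharP F p]
    (τ : Qb N M → Eb N M → A) (hτ : ∑ v, bd sb tb (τ v) v = - (p : A))
    (W₀ : Finset (Cb N M)) (hW₀ : W₀.card ≤ K)
    (M₀ : XX (A := A) (sb (N := N) (M := M)) tb)
    (hM₀ : M₀ ∈ SolS sb tb τ W₀) {r : ℕ} (hr : r ≤ K) :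
    HasPM F (NN sb tb) (SolS sb tb τ) Finset.card W₀ M₀ r := by
  classical
  have hp : p.Prime := Fact.out
  have hp2 := hp.two_le
  obtain ⟨a, ha⟩ : ∃ a : Fin (2 * p - 1) ↪ Fin N, ∀ u, a u ∈ freeR W₀ := by
    have h1 : Fintype.card (Fin (2 * p - 1)) ≤ Fintype.card (freeR W₀) := by
      rw [Fintype.card_fin, Fintype.card_coe]
      have := card_freeR W₀
      omega
    obtain ⟨f⟩ := Function.Embedding.nonempty_of_card_le h1
    exact ⟨f.trans (Function.Embedding.subtype _), fun u => (f u).2⟩
  obtain ⟨b, hb⟩ : ∃ b : Fin (p - 1) ↪ Fin M, ∀ u, b u ∈ freeC W₀ := by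
    have h1 : Fintype.card (Fin (p - 1)) ≤ Fintype.card (freeC W₀) := by
      rw [Fintype.card_fin, Fintype.card_coe]
      have := card_freeC W₀
      omega
    obtain ⟨f⟩ := Function.Embedding.nonempty_of_card_le h1
    exact ⟨f.trans (Function.Embedding.subtype _), fun u => (f u).2⟩
  have hβ : ∀ v, Sum.inr v ∈ W₀ → be (A := A) a b v = 0 := by
    intro v hv
    rcases v with i | j
    · show (if ∃ u, a u = i then (1 : A) else 0) = 0
      rw [if_neg]
      rintro ⟨u, rfl⟩
      exact mem_freeR.1 (ha u) _ hv rfl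
    · show - (if ∃ u, b u = j then (1 : A) else 0) = 0
      rw [if_neg, neg_zero]
      rintro ⟨u, rfl⟩
      exact mem_freeC.1 (hb u) _ hv rfl
  obtain ⟨y, hy1, hy2⟩ := exists_glob_t τ hM₀ (conn (A := A) (by omega) (ha ⟨0, by omega⟩))
    (fun v => bd sb tb (τ v) v + be a b v) (fun v hv => by rw [hβ v hv, add_zero])
  have hy3 : ∀ v, bd sb tb y v = bd sb tb (τ v) v + be a b v := by
    intro v
    by_cases hv : v = Sum.inl (a ⟨0, by omega⟩)
    · have h1 := sum_bd sb tb y
      have h2 : ∑ v, (bd sb tb (τ v) v + be (A := A) a b v) = 0 := by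
        rw [Finset.sum_add_distrib, hτ, sum_be]
        obtain ⟨q, rfl⟩ : ∃ q, p = q + 1 := ⟨p - 1, by omega⟩
        have h3 : 2 * (q + 1) - 1 = 2 * q + 1 := by omega
        rw [h3, Nat.add_sub_cancel]
        push_cast
        ring
      rw [← Finset.add_sum_erase _ _ (mem_univ v)] at h1 h2
      have h3 : ∑ w ∈ univ.erase v, bd sb tb y w =
          ∑ w ∈ univ.erase v, (bd sb tb (τ w) w + be a b w) :=
        Finset.sum_congr rfl fun w hw => hy2 w fun h => ne_of_mem_erase hw (h.trans hv.symm)
      rw [h3] at h1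
      linear_combination h1 - h2
    · exact hy2 v hv
  let z : (Fin (p - 1) ↪ Fin (2 * p - 1)) → Cb N M → Eb N M → A := fun σ c e =>
    y e + mt a b σ e - tw τ c e
  have hcard : ((Fintype.card (Fin (p - 1) ↪ Fin (2 * p - 1)) : ℕ) : F) ≠ 0 :=
    card_emb_ne (p := p) (Fintype.card_fin _) (Fintype.card_fin _)
  refine ⟨Fin (p - 1) ↪ Fin (2 * p - 1), inferInstance,
    fun _ => ((Fintype.card (Fin (p - 1) ↪ Fin (2 * p - 1)) : ℕ) : F)⁻¹,
    fun σ => mk sb tb (z σ), ?_, ?_⟩
  · rw [Finset.sum_const, card_univ, nsmul_eq_mul, mul_inv_cancel₀ hcard]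
  intro W hW hWr G hG1 hG2
  rw [← Finset.mul_sum]
  convert mul_zero _
  have hWr' : W.card ≤ r := hWr
  let T : Finset (Fin (2 * p - 1)) := univ.filter fun u => Sum.inr (Sum.inl (a u)) ∈ W
  let C : Finset (Fin (p - 1)) := univ.filter fun j => ∃ c ∈ W, colOf c = some (b j)
  have hT : T.card ≤ (W.filter fun c => colOf c = none).card := by
    refine Finset.card_le_card_of_injOn (fun u => Sum.inr (Sum.inl (a u))) ?_ ?_
    · intro u hu
      have hu' := (mem_filter.1 (Finset.mem_coe.1 hu)).2
      exact Finset.mem_coe.2 (mem_filter.2 ⟨hu', rfl⟩)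
    · intro u _ u' _ h
      exact a.injective (Sum.inl.inj (Sum.inr.inj h))
  have hC : C.card ≤ (W.filter fun c => ¬ colOf c = none).card := by
    have h1 : (C.image fun j => some (b j)).card ≤
        ((W.filter fun c => ¬ colOf c = none).image colOf).card := by
      refine card_le_card fun x hx => ?_
      obtain ⟨j, hj, rfl⟩ := mem_image.1 hx
      obtain ⟨c, hc, h⟩ := (mem_filter.1 hj).2
      refine mem_image.2 ⟨c, mem_filter.2 ⟨hc, ?_⟩, h⟩
      rw [h]
      exact Option.some_ne_none _
    rw [card_image_of_injective _ (fun j j' h => b.injective (Option.some.inj h))] at h1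
    exact h1.trans card_image_le
  have hTC : T.card + C.card ≤ p - 1 := by
    have h1 : (W.filter fun c => colOf c = none).card +
        (W.filter fun c => ¬ colOf c = none).card = W.card :=
      Finset.card_filter_add_card_filter_not _
    omega
  refine sum_emb (p := p) (Fintype.card_fin _) (Fintype.card_fin _) T C hTC
    (fun σ => G (mk sb tb (z σ))) ?_ ?_
  · -- dependence
    intro σ σ' h1 h2
    have h3 : mk sb tb (z σ) = mk sb tb (z σ') + (mk sb tb (z σ) - mk sb tb (z σ')) := by
      abel
    show G (mk sb tb (z σ)) = G (mk sb tb (z σ'))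
    rw [h3]
    refine hG1 _ _ ?_
    intro c hc
    show (mk sb tb (z σ)).1 c - (mk sb tb (z σ')).1 c = 0
    rw [sub_eq_zero]
    refine mk_congr sb tb c fun e he => ?_
    show y e + mt a b σ e - tw τ c e = y e + mt a b σ' e - tw τ c e
    have h4 : mt (A := A) a b σ e = mt a b σ' e := by
      unfold mt
      have h5 : ∀ j, (a (σ j) = e.1 ∧ b j = e.2) ↔ (a (σ' j) = e.1 ∧ b j = e.2) := by
        intro j
        have h6 : b j = e.2 → colOf c = some (b j) → σ j = σ' j := fun _ h7 =>
          h2 j (mem_filter.2 ⟨mem_univ _, c, hc, h7⟩)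
        rcases c with e' | i | j'
        · have h7 : e = e' := he
          subst h7
          constructor
          · rintro ⟨h8, h9⟩
            exact ⟨by rw [← h6 h9 (by rw [h9]; rfl)]; exact h8, h9⟩
          · rintro ⟨h8, h9⟩
            exact ⟨by rw [h6 h9 (by rw [h9]; rfl)]; exact h8, h9⟩
        · rw [see_row] at he
          constructor
          · rintro ⟨h8, h9⟩
            have h10 : σ j ∈ T := mem_filter.2 ⟨mem_univ _, by rw [h8, he]; exact hc⟩
            rw [(h1 _ h10 j).1 rfl]
            exact ⟨h8, h9⟩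
          · rintro ⟨h8, h9⟩
            have h10 : σ' j ∈ T := mem_filter.2 ⟨mem_univ _, by rw [h8, he]; exact hc⟩
            rw [(h1 _ h10 j).2 rfl]
            exact ⟨h8, h9⟩
        · rw [see_col] at he
          constructor
          · rintro ⟨h8, h9⟩
            exact ⟨by rw [← h6 h9 (by rw [h9, he]; rfl)]; exact h8, h9⟩
          · rintro ⟨h8, h9⟩
            exact ⟨by rw [h6 h9 (by rw [h9, he]; rfl)]; exact h8, h9⟩
      simp only [h5]
    rw [h4]
  · intro σ hσ
    have hval : ∀ c ∈ W, ∀ e, See sb tb c e → (mk sb tb (z σ)).1 c e = z σ c e := by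
      intro c hc e he
      refine mk_apply sb tb c (fun v hv => ?_) e he
      subst hv
      show bd sb tb (y + mt a b σ - τ v) v = 0
      rw [bd_sub, bd_add, hy3]
      rcases v with i | j
      · rw [bd_mt_row]
        have h1 : (∃ u, a u = i) ↔ ∃ j, a (σ j) = i := by
          constructor
          · rintro ⟨u, hu⟩
            obtain ⟨j, hj⟩ := hσ u (mem_filter.2 ⟨mem_univ _, by rw [hu]; exact hc⟩)
            exact ⟨j, by rw [hj, hu]⟩
          · rintro ⟨j, hj⟩
            exact ⟨_, hj⟩
        have h2 : be (A := A) a b (.inl i) = if ∃ j, a (σ j) = i then 1 else 0 := by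
          unfold be
          simp only [h1]
        rw [h2]
        ring
      · rw [bd_mt_col]
        have h2 : be (A := A) a b (.inr j) = - if ∃ t, b t = j then 1 else 0 := rfl
        rw [h2]
        ring
    refine hG2 _ ?_ ?_
    · intro c hc c' hc' e he he'
      rw [hval c hc e he, hval c' hc' e he']
      show y e + mt a b σ e - tw τ c e + tw τ c e = y e + mt a b σ e - tw τ c' e + tw τ c' e
      rw [sub_add_cancel, sub_add_cancel]
    · intro c hc
      show (mk sb tb (z σ)).1 c - M₀.1 c = 0
      rw [sub_eq_zero]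
      refine ext_class sb tb c fun e he => ?_
      rw [hval c (hW hc) e he]
      show y e + mt a b σ e - tw τ c e = _
      rw [hy1 c hc e he]
      have h1 : mt (A := A) a b σ e = 0 := by
        unfold mt
        rw [if_neg]
        rintro ⟨j, h2, h3⟩
        have h4 := mem_freeR.1 (ha (σ j)) c hc
        have h5 := mem_freeC.1 (hb j) c hc
        rcases c with e' | i | j'
        · have h6 : e = e' := he
          subst h6
          exact h4 (by rw [h2]; rfl)
        · rw [see_row] at he
          exact h4 (by rw [h2, he]; rfl)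
        · rw [see_col] at he
          exact h5 (by rw [h3, he]; rfl)
      rw [h1]
      ring

end

end Pool.Agent.K4H90.AllP
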